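import Pool.Agent.Helper74.RN.St

set_option autoImplicit false

/-!
Project RN, module RNG: runs of the first pass, converse.
-/

namespace Pool.Agent.Helper60.RN

open Pool.Agent.Helper74 Pool.Agent.Helper74.RN

/-- module RNG -/
theorem hRNG : Pool.Agent.Helper74.RN.StRNG := by
  intro G R N w k hF
  induction hF with
  | nil =>
    intro l
    induction l with
    | nil =>
      intro i _ _
      simpa using Rn.nil (R := R) (N := N) i
    | cons o l ih =>
      intro i h1 h2
      cases o with
      | none =>
        have h3 : l.filterMap id = [] := by simpa using h1
        have h4 : i + l.length < N := by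
          simp only [List.length_cons] at h2
          omega
        have h5 := ih i h3 h4
        have h6 : i < N := by omega
        rw [List.map_cons]
        exact Rn.one (Ce.c) 0 _ i i _ Sh.nop h6 h6 (by simp) h5
      | some x =>
        exfalso
        simp at h1
  | skip x w k _ ihF =>
    intro l
    induction l with
    | nil =>
      intro i h1 _
      exfalso
      simp at h1
    | cons o l ih =>
      intro i h1 h2
      have h4 : i + 1 + l.length < N := by
        simp only [List.length_cons] at h2
        omega
      have h6 : i < N := by omega
      cases o with
      | none =>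
        have h3 : l.filterMap id = x :: w := by simpa using h1
        have h5 := ih i h3 (by omega)
        rw [List.map_cons]
        exact Rn.one (Ce.c) 0 _ i i _ Sh.nop h6 h6 (by simp) h5
      | some z =>
        have h3 : z :: l.filterMap id = x :: w := by simpa using h1
        obtain ⟨rfl, h3'⟩ := List.cons_eq_cons.1 h3
        have h5 := ihF l (i + 1) h3' h4
        rw [List.map_cons]
        have h7 : i + (k + 1) = i + 1 + k := by omega
        rw [h7]
        exact Rn.one (Ce.a z) 1 _ i (i + 1) _ (Sh.un z) h6 (by omega) (by push_cast; ring) h5
  | wrap x y u v j k hR _ _ ih1 ih2 =>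
    intro l
    induction l with
    | nil =>
      intro i h1 _
      exfalso
      simp at h1
    | cons o l ih =>
      intro i h1 h2
      have h4 : i + 1 + l.length < N := by
        simp only [List.length_cons] at h2
        omega
      have h6 : i < N := by omega
      cases o with
      | none =>
        have h3 : l.filterMap id = x :: (u ++ y :: v) := by simpa using h1
        have h5 := ih i h3 (by omega)
        rw [List.map_cons]
        exact Rn.one (Ce.c) 0 _ i i _ Sh.nop h6 h6 (by simp) h5
      | some z =>
        have h3 : z :: l.filterMap id = x :: (u ++ y :: v) := by simpa using h1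
        obtain ⟨rfl, h3'⟩ := List.cons_eq_cons.1 h3
        obtain ⟨l₂, l₃, rfl, hu, h7⟩ := List.filterMap_eq_append_iff.1 h3'
        obtain ⟨l₄, b, l₅, rfl, hn, hb, hv⟩ := List.filterMap_eq_cons_iff.1 h7
        simp only [id_eq] at hb
        subst hb
        have h8 : (l₂ ++ l₄).filterMap id = u := by
          rw [List.filterMap_append, hu, List.filterMap_eq_nil_iff.2 hn, List.append_nil]
        have h9 : j ≤ (l₂ ++ l₄).length := by
          have h10 := fo_le R u j (by assumption)
          have h11 := List.length_filterMap_le id (l₂ ++ l₄)
          rw [h8] at h11
          omega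
        simp only [List.length_append, List.length_cons] at h4 h9
        have e1 := ih1 (l₂ ++ l₄) i h8 (by simp only [List.length_append]; omega)
        have e2 := ih2 l₅ (i + j) hv (by omega)
        have e3 : ((some z :: (l₂ ++ (l₄ ++ some y :: l₅))).map a1) =
            Ce.a z :: ((l₂ ++ l₄).map a1 ++ Ce.a y :: l₅.map a1) := by
          simp [a1]
        rw [e3, ← Nat.add_assoc]
        exact Rn.two z y _ _ i (i + j) _ hR h6 (by omega) e1 e2

end Pool.Agent.Helper60.RN
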